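import Mathlib

/-!
# A conditionally flat localization functor on groups that is not an epireflection

The functor is `L G = ℚ ⊗ G^ab` with coaugmentation `g ↦ 1 ⊗ [g]`.
-/

set_option autoImplicit false

open CategoryTheory TensorProduct

universe u

namespace Pool.Agent.Results.MP_52d248_al.NonEpi

/-- A localization functor on the category of groups: an endofunctor `L` with a natural
transformation `η : Id ⟶ L` such that `L (η_G)` and `η_{L G}` are equal isomorphisms
`L G ⟶ L (L G)` for every group `G`. -/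
structure IsLocalizationFunctor (L : GrpCat.{u} ⥤ GrpCat.{u}) (η : 𝟭 GrpCat.{u} ⟶ L) : Prop where
  map_eq : ∀ G : GrpCat.{u}, L.map (η.app G) = η.app (L.obj G)
  isIso : ∀ G : GrpCat.{u}, IsIso (L.map (η.app G))

/-- `L` is an epireflection: `η_G : G ⟶ L G` is surjective for every group `G`. -/
def IsEpireflection (L : GrpCat.{u} ⥤ GrpCat.{u}) (η : 𝟭 GrpCat.{u} ⟶ L) : Prop :=
  ∀ G : GrpCat.{u}, Function.Surjective (η.app G).hom

/-- `1 ⟶ N ⟶ E ⟶ G ⟶ 1` (with the maps `i` and `p`) is a short exact sequence of groups. -/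
structure IsExtension {N E G : GrpCat.{u}} (i : N ⟶ E) (p : E ⟶ G) : Prop where
  inj : Function.Injective i.hom
  surj : Function.Surjective p.hom
  exact : i.hom.range = p.hom.ker

/-- The extension `1 ⟶ N ⟶ E ⟶ G ⟶ 1` (with the maps `i` and `p`) is `L`-flat. -/
structure IsFlatExtension (L : GrpCat.{u} ⥤ GrpCat.{u}) {N E G : GrpCat.{u}}
    (i : N ⟶ E) (p : E ⟶ G) : Prop where
  extension : IsExtension i p
  flat : IsExtension (L.map i) (L.map p)

/-- The fibre product `E ×_G H`, as a subgroup of `E × H`. -/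
def fibreProduct {E G H : GrpCat.{u}} (p : E ⟶ G) (f : H ⟶ G) : Subgroup (E × H) where
  carrier := {x | p.hom x.1 = f.hom x.2}
  one_mem' := by simp
  mul_mem' := by
    intro a b ha hb
    simp only [Set.mem_ofPred_eq] at ha hb ⊢
    simp only [Prod.fst_mul, Prod.snd_mul, map_mul, ha, hb]
  inv_mem' := by
    intro a ha
    simp only [Set.mem_ofPred_eq] at ha ⊢
    simp only [Prod.fst_inv, Prod.snd_inv, map_inv, ha]

/-- The inclusion `n ↦ (i n, 1)` of the kernel `N` in the fibre product, for `i`, `p` with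
`p ∘ i` trivial. -/
def pulledIncl {N E G H : GrpCat.{u}} (i : N ⟶ E) (p : E ⟶ G) (f : H ⟶ G)
    (h : ∀ n : N, p.hom (i.hom n) = 1) : N ⟶ GrpCat.of (fibreProduct p f) :=
  GrpCat.ofHom
    { toFun := fun n => ⟨(i.hom n, 1), by
        show p.hom (i.hom n) = f.hom 1
        rw [h, map_one]⟩
      map_one' := by
        apply Subtype.ext
        simp
      map_mul' := by
        intro a b
        apply Subtype.ext
        simp }

/-- The projection `(e, h) ↦ h` of the fibre product `E ×_G H` to `H`. -/
def pulledProj {E G H : GrpCat.{u}} (p : E ⟶ G) (f : H ⟶ G) :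
    GrpCat.of (fibreProduct p f) ⟶ H :=
  GrpCat.ofHom ((MonoidHom.snd E H).comp (fibreProduct p f).subtype)

/-- `L` is conditionally flat: for every `L`-flat extension `1 ⟶ N ⟶ E ⟶ G ⟶ 1` and every
homomorphism `f : H ⟶ G` the pulled back extension `1 ⟶ N ⟶ E ×_G H ⟶ H ⟶ 1` is `L`-flat. -/
def IsConditionallyFlat (L : GrpCat.{u} ⥤ GrpCat.{u}) : Prop :=
  ∀ (N E G : GrpCat.{u}) (i : N ⟶ E) (p : E ⟶ G) (h : ∀ n : N, p.hom (i.hom n) = 1),
    IsFlatExtension L i p → ∀ (H : GrpCat.{u}) (f : H ⟶ G),
      IsFlatExtension L (pulledIncl i p f h) (pulledProj p f)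

/-! ### The functor -/

/-- The underlying group of `L G`: the group `ℚ ⊗ G^ab`, written multiplicatively. -/
abbrev obj (G : Type u) [Group G] : Type u :=
  Multiplicative (ℚ ⊗[ℤ] Additive (Abelianization G))

/-- The map `1 ⊗ [g]`. -/
noncomputable def eta (G : Type u) [Group G] : G →* obj G where
  toFun g := Multiplicative.ofAdd ((1 : ℚ) ⊗ₜ[ℤ] Additive.ofMul (Abelianization.of g))
  map_one' := by simp
  map_mul' a b := by
    rw [map_mul, ofMul_mul, TensorProduct.tmul_add, ofAdd_add]

/-- The additive map `ℚ ⊗ G^ab → ℚ ⊗ H^ab` induced by `f`. -/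
noncomputable def mapLin {G H : Type u} [Group G] [Group H] (f : G →* H) :
    ℚ ⊗[ℤ] Additive (Abelianization G) →+ ℚ ⊗[ℤ] Additive (Abelianization H) :=
  (LinearMap.lTensor ℚ
    (MonoidHom.toAdditive (Abelianization.map f)).toIntLinearMap).toAddMonoidHom

/-- The induced homomorphism. -/
noncomputable def mapHom {G H : Type u} [Group G] [Group H] (f : G →* H) : obj G →* obj H :=
  AddMonoidHom.toMultiplicative (mapLin f)

theorem mapLin_tmul {G H : Type u} [Group G] [Group H] (f : G →* H) (q : ℚ) (g : G) :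
    mapLin f (q ⊗ₜ[ℤ] Additive.ofMul (Abelianization.of g)) =
      q ⊗ₜ[ℤ] Additive.ofMul (Abelianization.of (f g)) :=
  LinearMap.lTensor_tmul ℚ (MonoidHom.toAdditive (Abelianization.map f)).toIntLinearMap q
    (Additive.ofMul (Abelianization.of g))

/-- Additive maps out of `ℚ ⊗ G^ab` are determined by their values on `q ⊗ [g]`. -/
theorem add_ext {G : Type u} [Group G] {A : Type*} [AddCommGroup A]
    (f g : ℚ ⊗[ℤ] Additive (Abelianization G) →+ A)
    (h : ∀ (q : ℚ) (x : G), f (q ⊗ₜ[ℤ] Additive.ofMul (Abelianization.of x)) =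
      g (q ⊗ₜ[ℤ] Additive.ofMul (Abelianization.of x))) : f = g := by
  ext x
  induction x using TensorProduct.induction_on with
  | zero => simp
  | tmul q a =>
    obtain ⟨x, hx⟩ : ∃ x : G, Abelianization.of x = Additive.toMul a :=
      QuotientGroup.mk_surjective (Additive.toMul a)
    have := h q x
    rw [hx] at this
    exact this
  | add a b ha hb => rw [map_add, map_add, ha, hb]

/-- Homomorphisms out of `L G` are determined by their values on `q ⊗ [g]`. -/
theorem obj_ext {G : Type u} [Group G] {A : Type*} [AddCommGroup A]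
    (f g : obj G →* Multiplicative A)
    (h : ∀ (q : ℚ) (x : G),
      f (Multiplicative.ofAdd (q ⊗ₜ[ℤ] Additive.ofMul (Abelianization.of x))) =
      g (Multiplicative.ofAdd (q ⊗ₜ[ℤ] Additive.ofMul (Abelianization.of x)))) : f = g := by
  have := add_ext (AddMonoidHom.toMultiplicative.symm f) (AddMonoidHom.toMultiplicative.symm g)
    (fun q x => congrArg Multiplicative.toAdd (h q x))
  exact AddMonoidHom.toMultiplicative.symm.injective this

theorem mapHom_gen {G H : Type u} [Group G] [Group H] (f : G →* H) (q : ℚ) (g : G) :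
    mapHom f (Multiplicative.ofAdd (q ⊗ₜ[ℤ] Additive.ofMul (Abelianization.of g))) =
      Multiplicative.ofAdd (q ⊗ₜ[ℤ] Additive.ofMul (Abelianization.of (f g))) :=
  congrArg Multiplicative.ofAdd (mapLin_tmul f q g)

theorem mapHom_id (G : Type u) [Group G] : mapHom (MonoidHom.id G) = MonoidHom.id (obj G) := by
  apply obj_ext
  intro q x
  rw [mapHom_gen]
  rfl

theorem mapHom_comp {G H K : Type u} [Group G] [Group H] [Group K] (f : G →* H) (g : H →* K) :
    mapHom (g.comp f) = (mapHom g).comp (mapHom f) := by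
  apply obj_ext
  intro q x
  rw [mapHom_gen, MonoidHom.comp_apply, MonoidHom.comp_apply, mapHom_gen, mapHom_gen]

/-- The functor `L G = ℚ ⊗ G^ab`. -/
noncomputable def L : GrpCat.{u} ⥤ GrpCat.{u} where
  obj G := GrpCat.of (obj G)
  map f := GrpCat.ofHom (mapHom f.hom)
  map_id G := by
    rw [GrpCat.hom_id, mapHom_id]
    rfl
  map_comp f g := by
    rw [GrpCat.hom_comp, mapHom_comp]
    rfl

theorem mapHom_eta {G H : Type u} [Group G] [Group H] (f : G →* H) (x : G) :
    mapHom f (eta G x) = eta H (f x) :=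
  mapHom_gen f 1 x

/-- The coaugmentation `g ↦ 1 ⊗ [g]`. -/
noncomputable def η : 𝟭 GrpCat.{u} ⟶ L where
  app G := GrpCat.ofHom (eta G)
  naturality G H f := by
    apply GrpCat.ext
    intro x
    exact (mapHom_eta f.hom x).symm

/-! ### `L` is a localization functor -/

/-- The additive version of `η_{L G}`. -/
noncomputable def etaL (G : Type u) [Group G] :
    ℚ ⊗[ℤ] Additive (Abelianization G) →+ ℚ ⊗[ℤ] Additive (Abelianization (obj G)) :=
  AddMonoidHom.toMultiplicative.symm (eta (obj G))

theorem etaL_apply (G : Type u) [Group G] (x : ℚ ⊗[ℤ] Additive (Abelianization G)) :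
    etaL G x = (1 : ℚ) ⊗ₜ[ℤ] Additive.ofMul (Abelianization.of (Multiplicative.ofAdd x)) :=
  rfl

theorem etaL_smul (G : Type u) [Group G] (q : ℚ) (x : ℚ ⊗[ℤ] Additive (Abelianization G)) :
    etaL G (q • x) = q ⊗ₜ[ℤ] Additive.ofMul (Abelianization.of (Multiplicative.ofAdd x)) := by
  rw [map_rat_smul, etaL_apply, TensorProduct.smul_tmul', smul_eq_mul, mul_one]

theorem mapHom_eta_eq (G : Type u) [Group G] : mapHom (eta G) = eta (obj G) := by
  apply obj_ext
  intro q x
  rw [mapHom_gen]
  have h := etaL_smul G q ((1 : ℚ) ⊗ₜ[ℤ] Additive.ofMul (Abelianization.of x))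
  rw [TensorProduct.smul_tmul', smul_eq_mul, mul_one] at h
  exact (congrArg Multiplicative.ofAdd h).symm

/-- The inverse of `η_{L G}`, on the additive level: `q ⊗ [x] ↦ q x`. -/
noncomputable def mu (G : Type u) [Group G] :
    ℚ ⊗[ℤ] Additive (Abelianization (obj G)) →+ ℚ ⊗[ℤ] Additive (Abelianization G) :=
  (TensorProduct.lift
    (LinearMap.mk₂ ℤ
      (fun (q : ℚ) (y : Additive (Abelianization (obj G))) =>
        q • Multiplicative.toAdd
          (Abelianization.lift (MonoidHom.id (obj G)) (Additive.toMul y)))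
      (fun a b y => add_smul a b _)
      (fun c a y => by rw [smul_assoc])
      (fun a y z => by rw [toMul_add, map_mul, toAdd_mul, smul_add])
      (fun c a y => by
        rw [toMul_zsmul, map_zpow, toAdd_zpow, smul_comm]))).toAddMonoidHom

theorem mu_tmul (G : Type u) [Group G] (q : ℚ) (x : ℚ ⊗[ℤ] Additive (Abelianization G)) :
    mu G (q ⊗ₜ[ℤ] Additive.ofMul (Abelianization.of (Multiplicative.ofAdd x))) = q • x :=
  rfl

theorem mu_etaL (G : Type u) [Group G] (x : ℚ ⊗[ℤ] Additive (Abelianization G)) :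
    mu G (etaL G x) = x := by
  rw [etaL_apply, mu_tmul, one_smul]

theorem etaL_mu (G : Type u) [Group G] (y : ℚ ⊗[ℤ] Additive (Abelianization (obj G))) :
    etaL G (mu G y) = y := by
  have : (etaL G).comp (mu G) = AddMonoidHom.id _ := by
    apply add_ext
    intro q x
    have h2 := etaL_smul G q (Multiplicative.toAdd x)
    exact h2
  exact DFunLike.congr_fun this y

theorem isLocalization : IsLocalizationFunctor L.{u} η.{u} where
  map_eq G := by
    change GrpCat.ofHom (mapHom (eta G)) = GrpCat.ofHom (eta (obj G))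
    rw [mapHom_eta_eq]
  isIso G := by
    have h : L.map (η.app G) = GrpCat.ofHom (eta (obj G)) := by
      change GrpCat.ofHom (mapHom (eta G)) = GrpCat.ofHom (eta (obj G))
      rw [mapHom_eta_eq]
    rw [h]
    refine ⟨GrpCat.ofHom (AddMonoidHom.toMultiplicative (mu G)), ?_, ?_⟩
    · apply GrpCat.ext
      intro x
      exact mu_etaL G (Multiplicative.toAdd x)
    · apply GrpCat.ext
      intro x
      exact etaL_mu G (Multiplicative.toAdd x)

/-! ### `L` is right exact -/

theorem abelianization_exact {N E G : GrpCat.{u}} (i : N ⟶ E) (p : E ⟶ G)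
    (h : IsExtension i p) (a : Abelianization E) :
    Abelianization.map p.hom a = 1 ↔ ∃ b, Abelianization.map i.hom b = a := by
  obtain ⟨e, rfl⟩ : ∃ e : E, Abelianization.of e = a := QuotientGroup.mk_surjective a
  constructor
  · intro he
    rw [Abelianization.map_of] at he
    have h1 : p.hom e ∈ commutator G := by
      rw [← Abelianization.ker_of]
      exact he
    have h2 : commutator G = (commutator E).map p.hom := by
      rw [commutator_def, commutator_def, Subgroup.map_commutator,
        Subgroup.map_top_of_surjective _ h.surj]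
    rw [h2] at h1
    obtain ⟨c, hc, hce⟩ := h1
    have h3 : e * c⁻¹ ∈ p.hom.ker := by
      rw [MonoidHom.mem_ker, map_mul, map_inv, hce, mul_inv_cancel]
    rw [← h.exact] at h3
    obtain ⟨n, hn⟩ := h3
    refine ⟨Abelianization.of n, ?_⟩
    rw [Abelianization.map_of, hn, map_mul, map_inv]
    have h4 : Abelianization.of c = 1 := by
      have : c ∈ (Abelianization.of : E →* _).ker := by
        rw [Abelianization.ker_of]
        exact hc
      exact this
    rw [h4, inv_one, mul_one]
  · rintro ⟨b, hb⟩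
    obtain ⟨n, rfl⟩ : ∃ n : N, Abelianization.of n = b := QuotientGroup.mk_surjective b
    rw [← hb, Abelianization.map_of, Abelianization.map_of]
    have : i.hom n ∈ p.hom.ker := by
      rw [← h.exact]
      exact ⟨n, rfl⟩
    rw [MonoidHom.mem_ker.mp this, map_one]

/-- Right exactness: for every extension `1 ⟶ N ⟶ E ⟶ G ⟶ 1` the sequence
`L N ⟶ L E ⟶ L G ⟶ 1` is exact. -/
theorem right_exact {N E G : GrpCat.{u}} (i : N ⟶ E) (p : E ⟶ G) (h : IsExtension i p) :
    Function.Surjective (L.map p).hom ∧ (L.map i).hom.range = (L.map p).hom.ker := by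
  have hs : Function.Surjective
      (MonoidHom.toAdditive (Abelianization.map p.hom)).toIntLinearMap := by
    intro a
    obtain ⟨g, hg⟩ : ∃ g : G, Abelianization.of g = Additive.toMul a :=
      QuotientGroup.mk_surjective (Additive.toMul a)
    obtain ⟨e, he⟩ := h.surj g
    refine ⟨Additive.ofMul (Abelianization.of e), ?_⟩
    change Additive.ofMul (Abelianization.map p.hom (Abelianization.of e)) = a
    rw [Abelianization.map_of, he, hg]
    rfl
  have he : Function.Exact
      (MonoidHom.toAdditive (Abelianization.map i.hom)).toIntLinearMap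
      (MonoidHom.toAdditive (Abelianization.map p.hom)).toIntLinearMap := by
    intro a
    exact abelianization_exact i p h (Additive.toMul a)
  have hL := lTensor_exact ℚ he hs
  have hS := LinearMap.lTensor_surjective ℚ hs
  refine ⟨?_, ?_⟩
  · intro y
    obtain ⟨x, hx⟩ := hS (Multiplicative.toAdd y)
    exact ⟨Multiplicative.ofAdd x, congrArg Multiplicative.ofAdd hx⟩
  · ext x
    rw [MonoidHom.mem_ker, MonoidHom.mem_range]
    have := hL (Multiplicative.toAdd x)
    constructor
    · rintro ⟨y, hy⟩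
      have h2 := this.mpr ⟨Multiplicative.toAdd y, congrArg Multiplicative.toAdd hy⟩
      exact congrArg Multiplicative.ofAdd h2
    · intro hx
      obtain ⟨y, hy⟩ := this.mp (congrArg Multiplicative.toAdd hx)
      exact ⟨Multiplicative.ofAdd y, congrArg Multiplicative.ofAdd hy⟩

/-! ### Conditional flatness -/

theorem pulled_extension {N E G : GrpCat.{u}} (i : N ⟶ E) (p : E ⟶ G)
    (h : ∀ n : N, p.hom (i.hom n) = 1) (hx : IsExtension i p) {H : GrpCat.{u}} (f : H ⟶ G) :
    IsExtension (pulledIncl i p f h) (pulledProj p f) where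
  inj := by
    intro a b hab
    have := congrArg (fun x : fibreProduct p f => (x : E × H).1) hab
    exact hx.inj this
  surj := by
    intro x
    obtain ⟨e, he⟩ := hx.surj (f.hom x)
    exact ⟨⟨(e, x), he⟩, rfl⟩
  exact := by
    ext x
    obtain ⟨⟨e, y⟩, hey⟩ := x
    constructor
    · rintro ⟨n, hn⟩
      have := congrArg (fun x : fibreProduct p f => (x : E × H).2) hn
      exact this.symm
    · intro hy
      have hy' : y = 1 := hy
      subst hy'
      have he : e ∈ p.hom.ker := by
        have : p.hom e = f.hom 1 := hey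
        rw [map_one] at this
        exact this
      rw [← hx.exact] at he
      obtain ⟨n, rfl⟩ := he
      exact ⟨n, rfl⟩

theorem conditionallyFlat : IsConditionallyFlat L.{u} := by
  intro N E G i p h hflat H f
  have hx := pulled_extension i p h hflat.extension f
  obtain ⟨h1, h2⟩ := right_exact _ _ hx
  refine ⟨hx, ?_, h1, h2⟩
  let pr : GrpCat.of (fibreProduct p f) ⟶ E :=
    GrpCat.ofHom ((MonoidHom.fst E H).comp (fibreProduct p f).subtype)
  have hpr : pulledIncl i p f h ≫ pr = i := by
    apply GrpCat.ext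
    intro x
    rfl
  have hinj := hflat.flat.inj
  rw [← hpr, L.map_comp, GrpCat.hom_comp] at hinj
  exact Function.Injective.of_comp hinj

/-! ### `L` is not an epireflection -/

/-- The homomorphism `q ⊗ [z] ↦ q z` from `ℚ ⊗ ℤ^ab` to `ℚ`. -/
noncomputable def toRat :
    ℚ ⊗[ℤ] Additive (Abelianization (ULift.{u} (Multiplicative ℤ))) →ₗ[ℤ] ℚ :=
  TensorProduct.lift
    (LinearMap.mk₂ ℤ
      (fun (q : ℚ) (y : Additive (Abelianization (ULift.{u} (Multiplicative ℤ)))) =>
        q * ((Multiplicative.toAdd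
          (Abelianization.lift (MulEquiv.ulift.toMonoidHom :
            ULift.{u} (Multiplicative ℤ) →* Multiplicative ℤ) (Additive.toMul y)) : ℤ) : ℚ))
      (fun a b y => add_mul a b _)
      (fun c a y => by rw [smul_mul_assoc])
      (fun a y z => by rw [toMul_add, map_mul, toAdd_mul, Int.cast_add, mul_add])
      (fun c a y => by
        rw [toMul_zsmul, map_zpow, toAdd_zpow, smul_eq_mul, Int.cast_mul, zsmul_eq_mul]
        ring))

theorem not_epireflection : ¬ IsEpireflection L.{u} η.{u} := by
  intro h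
  obtain ⟨z, hz⟩ := h (GrpCat.of (ULift.{u} (Multiplicative ℤ)))
    (Multiplicative.ofAdd ((2⁻¹ : ℚ) ⊗ₜ[ℤ] Additive.ofMul (Abelianization.of
      (ULift.up (Multiplicative.ofAdd (1 : ℤ))))))
  have h1 : toRat.{u} ((1 : ℚ) ⊗ₜ[ℤ] Additive.ofMul (Abelianization.of z)) =
      toRat.{u} ((2⁻¹ : ℚ) ⊗ₜ[ℤ] Additive.ofMul (Abelianization.of
      (ULift.up (Multiplicative.ofAdd (1 : ℤ))))) :=
    congrArg (fun x => toRat.{u} (Multiplicative.toAdd x)) hz
  have h2 : ((1 : ℚ) * ((Multiplicative.toAdd z.down : ℤ) : ℚ)) = 2⁻¹ * ((1 : ℤ) : ℚ) := h1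
  have h3 : (2 : ℚ) * ((Multiplicative.toAdd z.down : ℤ) : ℚ) = 1 := by
    rw [one_mul] at h2
    rw [h2]
    norm_num
  have h4 : (2 : ℤ) * (Multiplicative.toAdd z.down : ℤ) = 1 := by
    exact_mod_cast h3
  omega

/-- There is a localization functor on the category of groups that is conditionally flat and
is not an epireflection. -/
theorem result : ∃ (L : GrpCat.{u} ⥤ GrpCat.{u}) (η : 𝟭 GrpCat.{u} ⟶ L),
    IsLocalizationFunctor L η ∧ IsConditionallyFlat L ∧ ¬ IsEpireflection L η :=
  ⟨L, η, isLocalization, conditionallyFlat, not_epireflection⟩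

end Pool.Agent.Results.MP_52d248_al.NonEpi
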